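import Pool.Agent.helper37.NA.Spec

/-!
# Row na:NPA (MP_baa4d7_al): partition
-/

set_option autoImplicit false

namespace Pool.Agent.NAB

open Pool.Agent.helper58.DC Pool.Agent.DI Pool.Agent.GR Pool.Agent.OB Pool.Agent.DR Pool.Agent.FI Pool.Agent.FI3 Pool.Agent.FI4 Pool.Agent.FI4I Pool.Agent.LE Pool.Agent.L5

theorem NPA : NPA_stmt := by
  classical
  intro α β A B hA hB w v c r S hex hrefl hsymm htrans hSr hW hsum
  lift A to Finset α using hA
  lift B to Finset β using hB
  have e1 : ∀ a : α, {a' : α | a' ∈ (A : Set α) ∧ r a a'} = ((A.filter (fun a' => r a a') : Finset α) : Set α) := by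
    intro a
    ext a'
    simp
  have e2 : ∀ a : α, {b : β | b ∈ (B : Set β) ∧ S b a} = ((B.filter (fun b => S b a) : Finset β) : Set β) := by
    intro a
    ext b
    simp
  have hW' : ∀ a ∈ A, ∑ a' ∈ A.filter (fun a' => r a a'), w a' ≠ 0 := by
    intro a ha
    have := hW a (by simpa using ha)
    rwa [e1, finsum_mem_coe_finset] at this
  have hsum' : ∀ a ∈ A, ∑ b ∈ B.filter (fun b => S b a), v b = c * ∑ a' ∈ A.filter (fun a' => r a a'), w a' := by
    intro a ha
    have := hsum a (by simpa using ha)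
    rwa [e1, e2, finsum_mem_coe_finset, finsum_mem_coe_finset] at this
  rw [finsum_mem_coe_finset, finsum_mem_coe_finset]
  have hWr : ∀ a a' : α, r a a' → ∑ a'' ∈ A.filter (fun a'' => r a' a''), w a'' = ∑ a'' ∈ A.filter (fun a'' => r a a''), w a'' := by
    intro a a' h
    congr 1
    ext x
    simp only [Finset.mem_filter]
    constructor
    · rintro ⟨hx, hr⟩
      exact ⟨hx, htrans _ _ _ h hr⟩
    · rintro ⟨hx, hr⟩
      exact ⟨hx, htrans _ _ _ (hsymm _ _ h) hr⟩
  have hone : ∀ b ∈ B, ∑ a ∈ A.filter (fun a => S b a), w a / ∑ a' ∈ A.filter (fun a' => r a a'), w a' = 1 := by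
    intro b hb
    obtain ⟨a0, ha0, hS0⟩ := hex b (by simpa using hb)
    have ha0' : a0 ∈ A := by simpa using ha0
    have hf : A.filter (fun a => S b a) = A.filter (fun a => r a0 a) := by
      ext x
      simp only [Finset.mem_filter]
      constructor
      · rintro ⟨hx, hs⟩
        exact ⟨hx, (hSr b (by simpa using hb) a0 ha0 x (by simpa using hx) hS0).1 hs⟩
      · rintro ⟨hx, hs⟩
        exact ⟨hx, (hSr b (by simpa using hb) a0 ha0 x (by simpa using hx) hS0).2 hs⟩
    rw [hf]
    have : ∀ a ∈ A.filter (fun a => r a0 a), w a / ∑ a' ∈ A.filter (fun a' => r a a'), w a' =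
        w a / ∑ a' ∈ A.filter (fun a' => r a0 a'), w a' := by
      intro a ha
      rw [hWr a0 a (Finset.mem_filter.1 ha).2]
    rw [Finset.sum_congr rfl this, ← Finset.sum_div]
    exact div_self (hW' a0 ha0')
  calc ∑ b ∈ B, v b = ∑ b ∈ B, v b * ∑ a ∈ A.filter (fun a => S b a), w a / ∑ a' ∈ A.filter (fun a' => r a a'), w a' := by
        refine Finset.sum_congr rfl ?_
        intro b hb
        rw [hone b hb, mul_one]
    _ = ∑ b ∈ B, ∑ a ∈ A, (if S b a then v b * (w a / ∑ a' ∈ A.filter (fun a' => r a a'), w a') else 0) := by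
        refine Finset.sum_congr rfl ?_
        intro b _
        rw [Finset.mul_sum, Finset.sum_filter]
    _ = ∑ a ∈ A, ∑ b ∈ B, (if S b a then v b * (w a / ∑ a' ∈ A.filter (fun a' => r a a'), w a') else 0) := Finset.sum_comm
    _ = ∑ a ∈ A, c * w a := by
        refine Finset.sum_congr rfl ?_
        intro a ha
        rw [← Finset.sum_filter, ← Finset.sum_mul, hsum' a ha]
        have := hW' a ha
        field_simp
    _ = c * ∑ a ∈ A, w a := by rw [Finset.mul_sum]

end Pool.Agent.NAB
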