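import Pool.Agent.helper37.NA.Spec

/-!
# Row na:NQK (MP_baa4d7_al): unit classes of the quotient
-/

set_option autoImplicit false

namespace Pool.Agent.NAB

open Pool.Agent.helper58.DC Pool.Agent.DI Pool.Agent.GR Pool.Agent.OB Pool.Agent.DR Pool.Agent.FI Pool.Agent.FI3 Pool.Agent.FI4 Pool.Agent.FI4I Pool.Agent.LE Pool.Agent.L5

theorem NQK_card {G : Type} [Group G] [Finite G] (g : G) :
    (conjugatesOf g).ncard = (Subgroup.centralizer ({g} : Set G)).index := by
  classical
  have h1 : conjugatesOf g = MulAction.orbit (ConjAct G) g := by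
    ext x
    rw [ConjAct.mem_orbit_conjAct]
    exact ⟨fun h => (show IsConj g x from h).symm, fun h => (show IsConj g x from h.symm)⟩
  rw [h1, ← Nat.card_coe_set_eq, Nat.card_congr (MulAction.orbitEquivQuotientStabilizer (ConjAct G) g)]
  have h2 : Nat.card (MulAction.stabilizer (ConjAct G) g) =
      Nat.card (Subgroup.centralizer ({g} : Set G)) := by
    rw [Subgroup.nat_card_centralizer_nat_card_stabilizer]
  have h3 : (MulAction.stabilizer (ConjAct G) g).index * Nat.card (MulAction.stabilizer (ConjAct G) g)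
      = Nat.card G := by
    rw [Subgroup.index_mul_card]
    rfl
  have h4 := Subgroup.index_mul_card (Subgroup.centralizer ({g} : Set G))
  rw [← h3, h2] at h4
  have h5 : Nat.card (Subgroup.centralizer ({g} : Set G)) ≠ 0 := Nat.card_pos.ne'
  have h6 := Nat.eq_of_mul_eq_mul_right (Nat.pos_of_ne_zero h5) h4
  rw [h6]
  rfl

theorem NQK_omega {G : Type} [Group G] [Finite G] (g : G) :
    omega (fun _ => (1 : ℂ)) g = ((Subgroup.centralizer ({g} : Set G)).index : ℂ) := by
  unfold omega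
  rw [div_one, ← NQK_card]
  have hf : (conjugatesOf g).Finite := Set.toFinite _
  rw [finsum_mem_eq_finite_toFinset_sum _ hf, Finset.sum_const, nsmul_eq_mul, mul_one,
    Set.ncard_eq_toFinset_card _ hf]

theorem NQK (hKMG : KMG_stmt) (hKG1 : KG1_stmt) (hCLS : CLS_stmt) (hTPR : Pool.Agent.FI.TPR_stmt) (hSBI : SBI_stmt)
    (hC3 : C3_stmt) : NQK_stmt := by
  intro p e m M hs he G Gb _ _ _ _ R₁ π hQ χ hχ z x hU hz χ' hχ' hI
  have : Fact p.Prime := ⟨hs.pr⟩
  obtain ⟨m', hm1, hm⟩ := hKMG G Gb π hQ.sur (z * x)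
  have hmg : π (z * x) = π z * π x := map_mul π z x
  -- the central characters
  have hT := hTPR p M hs G
  have hTb := hTPR p M hs Gb
  have hLG := hCLS G (⊤ : Subgroup G) (z * x)
  have hLGb := hCLS Gb (⊤ : Subgroup Gb) (π z * π x)
  have hχ'b : χ' ∈ IrrOn (⊤ : Subgroup Gb) := by rw [hTb.1]; exact hχ'
  have hint : IsIntegral ℤ (cc χ' (cls (⊤ : Subgroup Gb) (π z * π x))) := hLGb.2.2.2.2.2.2.2.2 ⊤ le_rfl χ' hχ'b
  have hne1 : ¬ InM M (cc (fun g => χ' (π g)) (cls (⊤ : Subgroup G) (z * x))) := by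
    intro h
    exact hU.ne (((hSBI p M hs G ⊤ _ χ ((hT.2.1 _ χ).1 hI)).2 (z * x) (Subgroup.mem_top _)).1 h)
  have hom : cc (fun g => χ' (π g)) (cls (⊤ : Subgroup G) (z * x)) =
      (m' : ℂ) * cc χ' (cls (⊤ : Subgroup Gb) (π z * π x)) := by
    rw [← hLG.2.2.2.2.2.2.2.1, ← hLGb.2.2.2.2.2.2.2.1, ← hmg]
    exact hm χ'
  have hne : ¬ InM M (cc χ' (cls (⊤ : Subgroup Gb) (π z * π x))) := by
    intro h
    apply hne1
    rw [hom]
    exact InM.mul_left hs (IntAt.natCast hs m') h
  have hpm : ¬ p ∣ m' := by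
    rintro ⟨k, hk⟩
    apply hne1
    rw [hom]
    refine InM.mul_right hs ?_ (IntAt.of_isIntegral hs hint)
    rw [hk]
    push_cast
    refine InM.mul_right hs ?_ (IntAt.natCast hs k)
    have := InM.coe hs hs.mem
    simpa using this
  -- the orders of the centralisers
  have hcg := hm (fun _ => (1 : ℂ))
  have hcg' : ((Subgroup.centralizer ({z * x} : Set G)).index : ℂ) =
      (m' : ℂ) * ((Subgroup.centralizer ({π (z * x)} : Set Gb)).index : ℂ) := by
    rw [← NQK_omega, ← NQK_omega]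
    exact hcg
  have hidx : (Subgroup.centralizer ({z * x} : Set G)).index = m' * (Subgroup.centralizer ({π (z * x)} : Set Gb)).index := by
    exact_mod_cast hcg'
  have hG := Subgroup.index_mul_card (Subgroup.centralizer ({z * x} : Set G))
  have hGb := Subgroup.index_mul_card (Subgroup.centralizer ({π (z * x)} : Set Gb))
  have hGG := (hKG1 p G Gb R₁ π hQ).2.1
  have hib : (Subgroup.centralizer ({π (z * x)} : Set Gb)).index ≠ 0 := Subgroup.FiniteIndex.index_ne_zero
  have hkey : m' * Nat.card (Subgroup.centralizer ({z * x} : Set G)) =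
      Nat.card R₁ * Nat.card (Subgroup.centralizer ({π (z * x)} : Set Gb)) := by
    rw [hidx, hGG, ← hGb] at hG
    apply Nat.eq_of_mul_eq_mul_right (Nat.pos_of_ne_zero hib)
    calc m' * Nat.card (Subgroup.centralizer ({z * x} : Set G)) * (Subgroup.centralizer ({π (z * x)} : Set Gb)).index
        = m' * (Subgroup.centralizer ({π (z * x)} : Set Gb)).index * Nat.card (Subgroup.centralizer ({z * x} : Set G)) := by ring
      _ = _ := by rw [hG]; ring
  have hval : padicValNat p (Nat.card (Subgroup.centralizer ({π (z * x)} : Set Gb))) ≤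
      padicValNat p (Nat.card (Subgroup.centralizer ({z * x} : Set G))) := by
    have h1 := congrArg (padicValNat p) hkey
    have hc1 : Nat.card (Subgroup.centralizer ({z * x} : Set G)) ≠ 0 := Nat.card_pos.ne'
    have hc2 : Nat.card (Subgroup.centralizer ({π (z * x)} : Set Gb)) ≠ 0 := Nat.card_pos.ne'
    have hc3 : Nat.card R₁ ≠ 0 := Nat.card_pos.ne'
    rw [padicValNat.mul (by omega) hc1, padicValNat.mul hc3 hc2, padicValNat.eq_zero_of_not_dvd hpm] at h1
    omega
  have hz1 : (π z) ^ p ^ (e - 1) ≠ 1 := by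
    rw [← map_pow]
    exact fun h => hz ((hQ.ker _).1 h)
  obtain ⟨k, hk⟩ := hU.pe
  refine ⟨⟨k, by rw [← map_pow, hk, map_one]⟩, fun h => hU.re (h.trans (orderOf_map_dvd π x)), by rw [← map_mul, hU.co, map_mul],
    Subgroup.mem_top _, Subgroup.mem_top _, ?_, hne, ?_⟩
  · obtain ⟨n, rfl⟩ : ∃ n, e = n + 1 := ⟨e - 1, by omega⟩
    refine orderOf_eq_prime_pow ?_ ?_
    · simpa using hz1
    · rw [← map_pow, ← hU.od, pow_orderOf_eq_one, map_one]
  · refine le_trans ?_ hU.cd
    unfold pp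
    rw [hTb.2.2.2.2, hT.2.2.2.2, ← hmg]
    exact Nat.pow_le_pow_right hs.pr.pos hval

end Pool.Agent.NAB
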